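import Pool.Agent.K7.H12.GL.Defs

/-!
# Project GL, job BASE
-/

set_option autoImplicit false

namespace Pool.Agent.K7.H12.GL

variable {L : Type} [CompleteLattice L] {ρ : L → ℕ}

theorem eq_of_le_point (a : L) {p q : L} (hp : a ⋖ p) (hq : a ⋖ q) (h : q ≤ p) : q = p := by
  rcases h.lt_or_eq with h | h
  · exact absurd h (hp.2 hq.1)
  · exact h

theorem base_fin (hG : Geo L ρ) (a : L) (A : Set L) (W : Set L) (_ : W ⊆ A) :
    ∃ F : Finset L, (F : Set L) ⊆ W ∧ a ⊔ sSup (F : Set L) = a ⊔ sSup W := by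
  classical
  let S : Set ℕ := {n | ∃ F : Finset L, (F : Set L) ⊆ W ∧ ρ (a ⊔ sSup (F : Set L)) = n}
  have hne : S.Nonempty := ⟨_, ∅, by simp, rfl⟩
  have hbd : BddAbove S := by
    refine ⟨ρ ⊤, ?_⟩
    rintro n ⟨F, _, rfl⟩
    exact hG.mono.monotone le_top
  obtain ⟨F, hF, hm⟩ := Nat.sSup_mem hne hbd
  refine ⟨F, hF, le_antisymm (sup_le_sup le_rfl (sSup_le_sSup hF)) (sup_le le_sup_left ?_)⟩
  refine sSup_le fun w hw => ?_
  by_contra hcon
  have h1 : a ⊔ sSup (F : Set L) < a ⊔ sSup ((insert w F : Finset L) : Set L) := by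
    refine lt_of_le_of_ne (sup_le_sup le_rfl (sSup_le_sSup (by simp))) ?_
    intro h
    apply hcon
    rw [h]
    exact le_sup_of_le_right (le_sSup (by simp))
  have h2 := hG.mono h1
  have h3 : ρ (a ⊔ sSup ((insert w F : Finset L) : Set L)) ≤ sSup S := by
    refine le_csSup hbd ⟨insert w F, ?_, rfl⟩
    intro x hx
    rw [Finset.mem_coe, Finset.mem_insert] at hx
    rcases hx with rfl | hx
    · exact hw
    · exact hF hx
  omega

theorem base_le (a : L) (A : Set L) (b : L) (hb : b ∈ Sp a A) : a ≤ b ∧ b ≤ tp a A := by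
  obtain ⟨W, hW, rfl⟩ := hb
  exact ⟨le_sup_left, sup_le_sup le_rfl (sSup_le_sSup hW)⟩

theorem base_ext (hG : Geo L ρ) (a : L) (A : Set L) (hA : ∀ p ∈ A, a ⋖ p) (b : L)
    (hb : b ∈ Sp a A) (hne : b ≠ tp a A) :
    ∃ q ∈ A, ¬ q ≤ b ∧ b ⋖ b ⊔ q ∧ b ⊔ q ∈ Sp a A := by
  obtain ⟨h1, h2⟩ := base_le a A b hb
  have h3 : ∃ q ∈ A, ¬ q ≤ b := by
    by_contra hcon
    push Not at hcon
    exact hne (le_antisymm h2 (sup_le h1 (sSup_le hcon)))
  obtain ⟨q, hq, hqb⟩ := h3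
  refine ⟨q, hq, hqb, hG.semi a q b (hA q hq) h1 hqb, ?_⟩
  obtain ⟨W, hW, rfl⟩ := hb
  refine ⟨insert q W, Set.insert_subset hq hW, ?_⟩
  rw [sSup_insert, sup_comm q, ← sup_assoc]

theorem base_chain (hG : Geo L ρ) (a : L) (A : Set L) (hA : ∀ p ∈ A, a ⋖ p) (b : L)
    (hb : b ∈ Sp a A) : ∃ c : ℕ → L, c 0 = b ∧
      (∀ j, ρ b + j ≤ ρ (tp a A) → c j ∈ Sp a A ∧ b ≤ c j ∧ ρ (c j) = ρ b + j) ∧
      (∀ j, ρ b + j < ρ (tp a A) → c j ⋖ c (j + 1)) := by
  classical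
  have hstep : ∀ x : L, ∃ y : L, x ∈ Sp a A → x ≠ tp a A → x ⋖ y ∧ y ∈ Sp a A := by
    intro x
    by_cases h : x ∈ Sp a A ∧ x ≠ tp a A
    · obtain ⟨q, _, _, h1, h2⟩ := base_ext hG a A hA x h.1 h.2
      exact ⟨x ⊔ q, fun _ _ => ⟨h1, h2⟩⟩
    · exact ⟨x, fun h1 h2 => absurd ⟨h1, h2⟩ h⟩
  choose s hs using hstep
  have key : ∀ j, ρ b + j ≤ ρ (tp a A) →
      s^[j] b ∈ Sp a A ∧ b ≤ s^[j] b ∧ ρ (s^[j] b) = ρ b + j := by
    intro j
    induction j with
    | zero => intro _; exact ⟨hb, le_rfl, rfl⟩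
    | succ j ih =>
      intro hj
      obtain ⟨h1, h2, h3⟩ := ih (by omega)
      have hne : s^[j] b ≠ tp a A := by
        intro h
        rw [h] at h3
        omega
      obtain ⟨h4, h5⟩ := hs _ h1 hne
      rw [Function.iterate_succ', Function.comp_apply]
      refine ⟨h5, h2.trans h4.le, ?_⟩
      rw [hG.cov _ _ h4, h3]
      omega
  refine ⟨fun j => s^[j] b, rfl, key, ?_⟩
  intro j hj
  obtain ⟨h1, h2, h3⟩ := key j hj.le
  have hne : s^[j] b ≠ tp a A := by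
    intro h
    rw [h] at h3
    omega
  show s^[j] b ⋖ s^[j + 1] b
  rw [Function.iterate_succ', Function.comp_apply]
  exact (hs _ h1 hne).1

theorem base_points (a : L) (A : Set L) (b : L) (hb : b ∈ Sp a A) :
    b = a ⊔ sSup {p ∈ A | p ≤ b} := by
  obtain ⟨W, hW, rfl⟩ := hb
  refine le_antisymm (sup_le_sup le_rfl (sSup_le_sSup ?_)) (sup_le le_sup_left (sSup_le ?_))
  · intro w hw
    exact ⟨hW hw, le_sup_of_le_right (le_sSup hw)⟩
  · intro w hw
    exact hw.2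

theorem base_point (a : L) (A : Set L) (hA : ∀ p ∈ A, a ⋖ p) (p : L) (hp : p ∈ A) :
    p ∈ Sp a A := by
  refine ⟨{p}, Set.singleton_subset_iff.2 hp, ?_⟩
  rw [sSup_singleton, sup_eq_right.2 (hA p hp).le]

theorem base_lines (hG : Geo L ρ) (a : L) (A : Set L) (hA : ∀ p ∈ A, a ⋖ p) (p : L)
    (hp : p ∈ A) : (∀ l ∈ Ln A p, p ⋖ l) ∧ tp p (Ln A p) = tp a A ∧ Sp p (Ln A p) ⊆ Sp a A := by
  refine ⟨?_, ?_, ?_⟩
  · rintro l ⟨q, hq, hqp, rfl⟩
    exact hG.semi a q p (hA q hq) (hA p hp).le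
      (fun h => hqp (eq_of_le_point a (hA p hp) (hA q hq) h))
  · refine le_antisymm ?_ ?_
    · refine sup_le (le_sup_of_le_right (le_sSup hp)) (sSup_le ?_)
      rintro l ⟨q, hq, _, rfl⟩
      exact le_sup_of_le_right (sup_le (le_sSup hp) (le_sSup hq))
    · refine sup_le ((hA p hp).le.trans le_sup_left) (sSup_le fun q hq => ?_)
      by_cases h : q = p
      · subst h; exact le_sup_left
      · exact le_sup_of_le_right ((le_sup_right : q ≤ p ⊔ q).trans (le_sSup ⟨q, hq, h, rfl⟩))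
  · rintro b ⟨W, hW, rfl⟩
    refine ⟨{q ∈ A | q ≤ p ⊔ sSup W}, fun q hq => hq.1, le_antisymm ?_ ?_⟩
    · refine sup_le (le_sup_of_le_right (le_sSup ⟨hp, le_sup_left⟩)) (sSup_le fun l hl => ?_)
      obtain ⟨q, hq, _, rfl⟩ := hW hl
      have h1 : p ⊔ q ≤ p ⊔ sSup W := le_sup_of_le_right (le_sSup hl)
      exact le_sup_of_le_right (sup_le (le_sSup ⟨hp, le_sup_left⟩)
        (le_sSup ⟨hq, le_sup_right.trans h1⟩))
    · exact sup_le ((hA p hp).le.trans le_sup_left) (sSup_le fun q hq => hq.2)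

theorem base_inj (hG : Geo L ρ) (a : L) (A : Set L) (hA : ∀ p ∈ A, a ⋖ p) (p : L) (hp : p ∈ A)
    (q : L) (hq : q ∈ A) (q' : L) (hq' : q' ∈ A) (s : L) (h1 : q ≤ s) (h2 : q' ≤ s)
    (h3 : ¬ p ≤ s) (h4 : p ⊔ q = p ⊔ q') : q = q' := by
  by_contra hne
  have e1 : ¬ q' ≤ q := fun h => hne (eq_of_le_point a (hA q hq) (hA q' hq') h).symm
  have e2 : ¬ p ≤ q := fun h => h3 (h.trans h1)
  have c1 : q ⋖ q ⊔ q' := hG.semi a q' q (hA q' hq') (hA q hq).le e1
  have c2 : q ⋖ q ⊔ p := hG.semi a p q (hA p hp) (hA q hq).le e2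
  have c3 : q ⊔ q' ≤ q ⊔ p := by
    refine sup_le le_sup_left ?_
    rw [sup_comm q p, h4]
    exact le_sup_right
  have c4 : q ⊔ q' = q ⊔ p := by
    rcases c3.lt_or_eq with h | h
    · exact absurd h (c2.2 c1.1)
    · exact h
  apply h3
  refine le_trans ?_ (sup_le h1 h2)
  rw [c4]
  exact le_sup_right

theorem stBase : StBase := by
  intro L _ ρ hG
  exact
    { fin := fun a A _ W hW => base_fin hG a A W hW
      ext := fun a A hA b hb hne => base_ext hG a A hA b hb hne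
      chain := fun a A hA b hb => base_chain hG a A hA b hb
      le_tp := fun a A b hb => base_le a A b hb
      eq_of_points := fun a A b hb => base_points a A b hb
      point := fun a A hA p hp => base_point a A hA p hp
      lines := fun a A hA p hp => base_lines hG a A hA p hp
      inj := fun a A hA p hp q hq q' hq' s h1 h2 h3 h4 =>
        base_inj hG a A hA p hp q hq q' hq' s h1 h2 h3 h4 }

end Pool.Agent.K7.H12.GL
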