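import Mathlib

/-!
# Project GL: disjoint maximal chains through the atoms of an infinite geometric lattice

Definitions and the statements of the jobs.  Everything happens inside one lattice `L`; a geometry is
given by an element `a` and a set `A` of covers of `a` (the points), its flats are the joins of `a` with
sets of points.
-/

set_option autoImplicit false

namespace Pool.Agent.K7.H12.GL

open Cardinal

/-- `ρ` is a rank function of a semimodular lattice of finite length -/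
structure Geo (L : Type) [CompleteLattice L] (ρ : L → ℕ) : Prop where
  mono : StrictMono ρ
  cov : ∀ x y : L, x ⋖ y → ρ y = ρ x + 1
  semi : ∀ a p b : L, a ⋖ p → a ≤ b → ¬ p ≤ b → b ⋖ b ⊔ p

/-- the flats -/
def Sp {L : Type} [CompleteLattice L] (a : L) (A : Set L) : Set L :=
  {b | ∃ W : Set L, W ⊆ A ∧ b = a ⊔ sSup W}

/-- the top flat -/
def tp {L : Type} [CompleteLattice L] (a : L) (A : Set L) : L := a ⊔ sSup A

/-- the lines through the point `p` -/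
def Ln {L : Type} [CompleteLattice L] (A : Set L) (p : L) : Set L :=
  {l | ∃ q ∈ A, q ≠ p ∧ l = p ⊔ q}

/-- disjoint chains through the points: `f p 1 = p`, `f p i` is a flat of rank `ρ a + i` -/
def T {L : Type} [CompleteLattice L] (ρ : L → ℕ) (a : L) (A : Set L) : Prop :=
  ∃ f : L → ℕ → L, ∀ p ∈ A, f p 1 = p ∧
    (∀ i, 1 ≤ i → ρ a + i < ρ (tp a A) → f p i ⋖ f p (i + 1)) ∧
    (∀ i, 1 ≤ i → ρ a + i ≤ ρ (tp a A) → f p i ∈ Sp a A) ∧
    (∀ q ∈ A, ∀ i, 1 ≤ i → ρ a + i < ρ (tp a A) → f p i = f q i → p = q)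

/-- basic facts on the geometry `(a, A)` -/
structure Base (L : Type) [CompleteLattice L] (ρ : L → ℕ) : Prop where
  /-- every flat is spanned by a finite set -/
  fin : ∀ (a : L) (A : Set L), (∀ p ∈ A, a ⋖ p) → ∀ W : Set L, W ⊆ A →
    ∃ F : Finset L, (F : Set L) ⊆ W ∧ a ⊔ sSup (F : Set L) = a ⊔ sSup W
  /-- a flat that is not the top can be extended by a point -/
  ext : ∀ (a : L) (A : Set L), (∀ p ∈ A, a ⋖ p) → ∀ b ∈ Sp a A, b ≠ tp a A →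
    ∃ q ∈ A, ¬ q ≤ b ∧ b ⋖ b ⊔ q ∧ b ⊔ q ∈ Sp a A
  /-- a saturated chain of flats from `b` to the top -/
  chain : ∀ (a : L) (A : Set L), (∀ p ∈ A, a ⋖ p) → ∀ b ∈ Sp a A, ∃ c : ℕ → L, c 0 = b ∧
    (∀ j, ρ b + j ≤ ρ (tp a A) → c j ∈ Sp a A ∧ b ≤ c j ∧ ρ (c j) = ρ b + j) ∧
    (∀ j, ρ b + j < ρ (tp a A) → c j ⋖ c (j + 1))
  /-- flats lie between `a` and the top -/
  le_tp : ∀ (a : L) (A : Set L), ∀ b ∈ Sp a A, a ≤ b ∧ b ≤ tp a A
  /-- a flat is the join of `a` and the points below it -/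
  eq_of_points : ∀ (a : L) (A : Set L), ∀ b ∈ Sp a A, b = a ⊔ sSup {p ∈ A | p ≤ b}
  /-- the points are flats -/
  point : ∀ (a : L) (A : Set L), (∀ p ∈ A, a ⋖ p) → ∀ p ∈ A, p ∈ Sp a A
  /-- the geometry of the lines through a point -/
  lines : ∀ (a : L) (A : Set L), (∀ p ∈ A, a ⋖ p) → ∀ p ∈ A,
    (∀ l ∈ Ln A p, p ⋖ l) ∧ tp p (Ln A p) = tp a A ∧ Sp p (Ln A p) ⊆ Sp a A
  /-- two points of a flat `s` span different lines with a point outside of `s` -/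
  inj : ∀ (a : L) (A : Set L), (∀ p ∈ A, a ⋖ p) → ∀ p ∈ A, ∀ q ∈ A, ∀ q' ∈ A, ∀ s : L,
    q ≤ s → q' ≤ s → ¬ p ≤ s → p ⊔ q = p ⊔ q' → q = q'

/-- JOB RANK: the rank function -/
def StRank : Prop := ∀ (L : Type) [CompleteLattice L] [IsUpperModularLattice L] (r : ℕ),
  Order.height (⊤ : L) = (r : ℕ∞) → ∃ ρ : L → ℕ, Geo L ρ ∧ ρ ⊥ = 0 ∧ ρ ⊤ = r

/-- JOB BASE -/
def StBase : Prop := ∀ (L : Type) [CompleteLattice L] (ρ : L → ℕ), Geo L ρ → Base L ρ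

/-- JOB CUT: a set `U` that meets every maximal chain that starts in `A'` has at least as many elements
as `A'` -/
def StCut : Prop := ∀ (L : Type) [CompleteLattice L] (ρ : L → ℕ), Geo L ρ → Base L ρ →
  ∀ (k : ℕ) (a : L) (A : Set L), A.Finite → (∀ p ∈ A, a ⋖ p) → ρ (tp a A) = ρ a + k → 2 ≤ k →
  ∀ (A' U : Set L), A' ⊆ A → U.Finite →
  (∀ c : ℕ → L, c 1 ∈ A' → (∀ i, 1 ≤ i → i < k → c i ∈ Sp a A) →
    (∀ i, 1 ≤ i → i + 1 < k → c i ⋖ c (i + 1)) → ∃ i, 1 ≤ i ∧ i < k ∧ c i ∈ U) →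
  A'.ncard ≤ U.ncard

/-- JOB FINITE: the theorem for a finite set of points (Mason) -/
def StFinite : Prop := ∀ (L : Type) [CompleteLattice L] (ρ : L → ℕ), Geo L ρ → Base L ρ →
  ∀ (a : L) (A : Set L), A.Finite → (∀ p ∈ A, a ⋖ p) → T ρ a A

/-- JOB GREEDY: a choice of disjoint finite sets -/
def StGreedy : Prop := ∀ (α β γ : Type) [Nonempty γ] (I : Set α) (κ : Cardinal.{0}), ℵ₀ ≤ κ → #I ≤ κ →
  ∀ (U : Set β), #U < κ → ∀ (J : α → Set γ) (c : α → γ → Finset β),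
  (∀ i ∈ I, κ ≤ #(J i)) →
  (∀ i ∈ I, ∀ j ∈ J i, ∀ j' ∈ J i, j ≠ j' → Disjoint (c i j : Set β) (c i j')) →
  ∃ g : α → γ, (∀ i ∈ I, g i ∈ J i ∧ Disjoint (c i (g i) : Set β) U) ∧
    ∀ i ∈ I, ∀ i' ∈ I, i ≠ i' → Disjoint (c i (g i) : Set β) (c i' (g i'))

/-- JOB CASE1: at most one point is on fewer lines than there are points -/
def StCase1 : Prop := ∀ (L : Type) [CompleteLattice L] (ρ : L → ℕ), Geo L ρ → Base L ρ →
  ∀ (a : L) (A : Set L), (∀ p ∈ A, a ⋖ p) → ρ a + 3 ≤ ρ (tp a A) → ℵ₀ ≤ #A →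
  (∀ p ∈ A, T ρ p (Ln A p)) →
  (∀ p ∈ A, ∀ q ∈ A, #(Ln A p) < #A → #(Ln A q) < #A → p = q) → T ρ a A

/-- JOB CASE2: two points are on fewer lines than there are points -/
def StCase2 : Prop := ∀ (L : Type) [CompleteLattice L] (ρ : L → ℕ), Geo L ρ → Base L ρ →
  ∀ (a : L) (A : Set L), (∀ p ∈ A, a ⋖ p) → ρ a + 3 ≤ ρ (tp a A) → ℵ₀ ≤ #A →
  (∀ E : Set L, E ⊆ A → #E < #A → T ρ a E) →
  ∀ p ∈ A, ∀ q ∈ A, p ≠ q → #(Ln A p) < #A → #(Ln A q) < #A → T ρ a A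

/-- JOB MAIN: the theorem for all sets of points -/
def StMain : Prop := ∀ (L : Type) [CompleteLattice L] (ρ : L → ℕ), Geo L ρ → Base L ρ →
  ∀ (a : L) (A : Set L), (∀ p ∈ A, a ⋖ p) → T ρ a A

/-- the frozen statement -/
def StFrozen : Prop :=
    ∀ (L : Type) [CompleteLattice L] [IsAtomistic L] [IsUpperModularLattice L] [Infinite L]
      (r : ℕ), Order.height (⊤ : L) = (r : ℕ∞) →
      ∃ M : Set (Set L),
        (∀ m ∈ M,
          (∀ x ∈ m, x ≠ ⊥ ∧ x ≠ ⊤) ∧ IsChain (· ≤ ·) m ∧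
          ∀ m' : Set L, (∀ x ∈ m', x ≠ ⊥ ∧ x ≠ ⊤) → IsChain (· ≤ ·) m' → m ⊆ m' → m' = m) ∧
        M.PairwiseDisjoint id ∧
        ∀ x : L, IsAtom x → ∃ m ∈ M, x ∈ m

end Pool.Agent.K7.H12.GL
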